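import Mathlib
import Pool.Agent.H.MP_7c6dee_nt.Main

set_option autoImplicit false

namespace Pool.Agent.Results.MP_7c6dee_nt.Queneau

theorem result :
    ∃ (m : ℕ) (u : ℕ → ℕ), 1 ≤ m ∧ (∀ i, i < m → 0 < u i) ∧
      (∀ i, i + 1 < m → u i < u (i + 1)) ∧
      (∀ n, m ≤ n →
        IsLeast {x : ℕ | u (n - 1) < x ∧ ∀ i j, i < j → j < n → x ≠ u i + u j} (u n)) ∧
      ¬ ∃ N p : ℕ, 1 ≤ p ∧ ∀ n, N ≤ n →
        ((u (n + p + 1) : ℤ) - (u (n + p) : ℤ)) = ((u (n + 1) : ℤ) - (u n : ℤ)) :=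
  Pool.Agent.H.MP_7c6dee_nt.main

end Pool.Agent.Results.MP_7c6dee_nt.Queneau
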